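import Pool.Agent.H95E17.Defs

/-!
# `W_Y` contains no copy of `Y ≀ ℤ` when `Y` is a finite non-abelian group

`W_Y` is residually finite, since its elements preserve the length of words and there are finitely
many words of each length; `Y ≀ ℤ` is not residually finite.
-/

set_option autoImplicit false

namespace Pool.Agent.Results.MP_e17fb9_al.NoLamplighterInWY

open Pool.Agent.H95E17

universe u

/-- For every finite non-abelian group `Y`, no subgroup of the finite state wreath power `W_Y` is
isomorphic to `Y ≀ ℤ`. -/
theorem result (Y : Type u) [Group Y] [Finite Y] (hY : ∃ x y : Y, x * y ≠ y * x)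
    (H : Subgroup (WY Y)) : IsEmpty (H ≃* Lamp Y) :=
  ⟨fun f => no_embedding hY (((WY Y).subtype.comp H.subtype).comp f.symm.toMonoidHom)
    (((WY Y).subtype_injective.comp H.subtype_injective).comp f.symm.injective)
    fun g w => length_of_mem_WY (f.symm g).1.2 w⟩

end Pool.Agent.Results.MP_e17fb9_al.NoLamplighterInWY
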