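import Pool.Agent.H95E17.Defs

/-!
# `𝔾_Y` is not isomorphic to `Y ≀ ℤ` when `Y` is a finite non-abelian group

The elements of `𝔾_Y` preserve the length of words, and there are finitely many words of each
length, so `𝔾_Y` is residually finite; `Y ≀ ℤ` is not: in every finite quotient some positive power
of the generator of `ℤ` becomes trivial, and so the commutators of the elements of the copy of `Y`
at the place `0` become trivial.
-/

set_option autoImplicit false

namespace Pool.Agent.Results.MP_e17fb9_al.NotIsoLamplighter

open Pool.Agent.H95E17

universe u

/-- For every finite non-abelian group `Y`, the group `𝔾_Y` generated by the states of the automaton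
`𝒜_Y` is not isomorphic to `Y ≀ ℤ`. -/
theorem result (Y : Type u) [Group Y] [Finite Y] (hY : ∃ x y : Y, x * y ≠ y * x) :
    IsEmpty (GY Y ≃* Lamp Y) :=
  ⟨fun f => no_embedding hY ((GY Y).subtype.comp f.symm.toMonoidHom)
    ((GY Y).subtype_injective.comp f.symm.injective)
    fun g w => length_of_mem_WY (GY_le_WY Y (f.symm g).2) w⟩

end Pool.Agent.Results.MP_e17fb9_al.NotIsoLamplighter
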